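import Pool.Agent.H399.EpiB

/-!
# Codistributive epigroup varieties and squares of their members

Every member of a codistributive element of the lattice of epigroup varieties has a completely
regular square.

Outline of the proof.  A codistributive element `V` is upper-modular, hence it does not contain the
semigroup `{x, y, xy, 0}` (`SX_notMem`, the main step; see the file of the hand-in
`MP_d7b8a3_al.NilUpperModular` for an outline).  Applying the codistributive law to pairs of small
varieties one shows that `V` contains neither `P = {e, a, 0}` (`ee = e`, `ea = a`, `ae = aa = 0`),
nor its dual, nor the commutative semigroups `{x, y, xy, 0}` and `{1, a, 0}`.  The exclusion of
the last one gives that all elements `eye` with `e` idempotent are group elements; together with the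
exclusion of `P` and its dual, all elements `ey` and `ye` are group elements, hence so are all
elements `p e q`.  Finally nil members of `V` have zero multiplication, and the Rees quotient by
the ideal generated by the idempotents is nil, so every product of two elements is of the form
`p e q`.
-/

namespace Pool.Agent.Results.MP_e62dc3_al.CodistributiveSquare

open Pool.Agent.H399.Epi

theorem result (V : EpiVar) (hV : Codistributive V) (A : USg) (hA : V.mem A) :
    CompletelyRegularSq A := sq_cr hV hA

end Pool.Agent.Results.MP_e62dc3_al.CodistributiveSquare
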